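import Pool.Agent.Q23.CH.Skew

/-!
# The determinant of `x + (j-k/p)` of order `(p-5)/2`, `p = 3 mod 4`

The skew-symmetric Toeplitz matrix `T` of order `(p-3)/2` has determinant one; the determinant is
`x` times the square of the sum of the first column of the inverse of `T`.  This sum is computed from
the first coefficients of the polynomial with the roots `(k/p) exp (2 π i k / p)`.
-/

set_option autoImplicit false

namespace Pool.Agent.Results.MP_f45d88_nt.FloorSquare

/-- The determinant of the matrix with the entries `x + ((j-k)/p)`, `0 ≤ j, k ≤ (p - 7) / 2`, of order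
`(p - 5) / 2`, where `x` is an element of a commutative ring. -/
def D (p : ℕ) [Fact p.Prime] {R : Type*} [CommRing R] (x : R) : R :=
  Matrix.det (Matrix.of fun j k : Fin ((p - 5) / 2) =>
    x + (legendreSym p (((j : ℕ) : ℤ) - ((k : ℕ) : ℤ)) : R))

lemma three_one [Fact (Nat.Prime 3)] : legendreSym 3 ((1 : ℕ) : ℤ) = 1 := by norm_num

lemma three_two [Fact (Nat.Prime 3)] : legendreSym 3 ((2 : ℕ) : ℤ) = -1 := by norm_num

/-- **Main result.**  The determinant is `⌊(p-2)/3⌋² x` for all primes `p ≥ 7`, `p = 3 mod 4`. -/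
theorem result : ∀ (p : ℕ) [Fact p.Prime], 7 ≤ p → p % 4 = 3 →
    ∀ {R : Type*} [CommRing R] (x : R), D p x = (((p - 2) / 3 : ℕ) : R) ^ 2 * x := by
  intro p _ h7 h3 R _ x
  obtain ⟨m, hm⟩ : ∃ m, p = 2 * m + 1 := ⟨p / 2, by omega⟩
  have hn : (p - 5) / 2 = m - 2 := by omega
  have : Fact (Nat.Prime 3) := ⟨by norm_num⟩
  have hq := legendreSym.quadratic_reciprocity_three_mod_four (p := p) (q := 3) h3 (by norm_num)
  have h9 : (quadraticChar (ZMod p) 3 : ℤ) = legendreSym p ((3 : ℕ) : ℤ) := by
    rw [legendreSym]; norm_num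
  have h8 : legendreSym 3 (p : ℤ) = if p % 3 = 1 then 1 else -1 := by
    have h10 : ¬ 3 ∣ p := by
      intro h
      have := (Nat.prime_dvd_prime_iff_eq (by norm_num) (Fact.out : p.Prime)).1 h
      omega
    rw [legendreSym.mod]
    have h11 : (p : ℤ) % ((3 : ℕ) : ℤ) = ((p % 3 : ℕ) : ℤ) := by push_cast; rfl
    rw [h11]
    have h12 : p % 3 = 1 ∨ p % 3 = 2 := by omega
    rcases h12 with h | h
    · rw [h, if_pos rfl]; exact three_one
    · rw [h, if_neg (by norm_num)]; exact three_two
  have hmain : (3 : ℤ) * (((p - 2) / 3 : ℕ) : ℤ) = p - 3 + quadraticChar (ZMod p) 3 := by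
    rw [h9]
    rw [h8] at hq
    split_ifs at hq with h
    · have : legendreSym p ((3 : ℕ) : ℤ) = -1 := by linarith
      rw [this]; omega
    · have : legendreSym p ((3 : ℕ) : ℤ) = 1 := by linarith
      rw [this]
      have h10 : ¬ 3 ∣ p := by
        intro h
        have := (Nat.prime_dvd_prime_iff_eq (by norm_num) (Fact.out : p.Prime)).1 h
        omega
      omega
  have h := Pool.Agent.Q23.CH.short h3 hm (by omega) _ hmain x
  rw [Int.cast_natCast] at h
  rw [← h, D, hn]
  congr 1
  ext j k
  rw [Matrix.of_apply, Pool.Agent.Q23.CH.TX, Matrix.of_apply]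
  simp only [legendreSym]
  push_cast
  rfl

end Pool.Agent.Results.MP_f45d88_nt.FloorSquare
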